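import Pool.Agent.Lib.MP_0cd4b8_pr.RecF

/-! The Poisson frog model on a supercritical Galton-Watson tree has a phase transition. -/

set_option autoImplicit false

open MeasureTheory
open scoped ENNReal NNReal
open Pool.Agent.Lib.MP_0cd4b8_pr

theorem Pool.Agent.Results.MP_0cd4b8_pr.PhaseTransition.result
    (p : Measure ℕ) [IsProbabilityMeasure p] (hp : 1 < ∫⁻ k, (k : ℝ≥0∞) ∂p) :
    (∀ μ : ℝ≥0, IsProbabilityMeasure (law p μ)) ∧
      ∃ μ₁ μ₂ : ℝ≥0, 0 < μ₁ ∧ μ₁ < μ₂ ∧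
        (∀ μ : ℝ≥0, μ ≤ μ₁ → Transient p μ) ∧ ∀ μ : ℝ≥0, μ₂ ≤ μ → Recurrent p μ := by
  refine ⟨fun μ => ProbabilityTheory.cond_isProbabilityMeasure ?_, ?_⟩
  · have h : {ω : (List ℕ → ℕ) × (List ℕ → ℕ × (ℕ → ℕ → ℝ)) | {v | InTree ω.1 v}.Infinite} =
        {ξ | {v | InTree ξ v}.Infinite} ×ˢ Set.univ := by
      ext ω; simp
    rw [h, Measure.prod_prod, measure_univ, mul_one]
    exact (survival_pos p hp).ne'
  · obtain ⟨μ₁, h0, h1⟩ := exists_transient p hp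
    obtain ⟨μ₂, h2⟩ := exists_recurrent p hp
    exact ⟨μ₁, μ₁ + μ₂ + 1, h0, lt_of_le_of_lt le_self_add (lt_add_one _), h1,
      fun μ hμ => h2 μ (le_trans (le_add_right le_add_self) hμ)⟩
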